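import Pool.Agent.H648Z.SP.Core

set_option autoImplicit false

open Filter

namespace Pool.Agent.Results.MP_5a03e9_nt.NoSparseSyndetic

/-- Upper Banach density: the limsup of `|E ∩ [M, N)| / (N - M)` as `N - M → ∞`. -/
noncomputable def upperBanach (E : Set ℕ) : ℝ :=
  limsup (fun p : ℕ × ℕ => ((E ∩ Set.Ico p.1 p.2).ncard : ℝ) / ((p.2 - p.1 : ℕ) : ℝ))
    (comap (fun p : ℕ × ℕ => p.2 - p.1) atTop)

/-- Upper relative density of `A` in `E`. -/
noncomputable def upperRel (E A : Set ℕ) : ℝ :=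
  limsup (fun N : ℕ => ((A ∩ Set.Icc 1 N).ncard : ℝ) / ((E ∩ Set.Icc 1 N).ncard : ℝ)) atTop

/-- The difference set `A - A`, in the integers. -/
def diffSet (A : Set ℕ) : Set ℤ := {z | ∃ a ∈ A, ∃ a' ∈ A, z = (a : ℤ) - (a' : ℤ)}

/-- Every block of `L` consecutive integers meets `S`, for some `L ≥ 1`. -/
def Syndetic (S : Set ℤ) : Prop :=
  ∃ L : ℕ, 1 ≤ L ∧ ∀ n : ℤ, ∃ z ∈ S, n ≤ z ∧ z < n + L

open Pool.Agent.H648Z.SP in
lemma sparse_of {E : Set ℕ} (h : upperBanach E = 0) : Sparse E := by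
  intro ε hε
  have hb : IsBoundedUnder (· ≤ ·) (comap (fun p : ℕ × ℕ => p.2 - p.1) atTop)
      (fun p : ℕ × ℕ => ((E ∩ Set.Ico p.1 p.2).ncard : ℝ) / ((p.2 - p.1 : ℕ) : ℝ)) := by
    refine isBoundedUnder_of ⟨1, fun p => div_le_one_of_le₀ ?_ (by positivity)⟩
    have := Set.ncard_le_ncard (Set.inter_subset_right (s := E) (t := Set.Ico p.1 p.2))
      (Set.finite_Ico _ _)
    rw [Set.ncard_Ico_nat] at this
    exact_mod_cast this
  have h1 := eventually_lt_of_limsup_lt (show upperBanach E < ε by rw [h]; exact hε) hb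
  rw [eventually_comap, eventually_atTop] at h1
  obtain ⟨M0, hM⟩ := h1
  refine ⟨M0 + 1, fun a M hM' => ?_⟩
  have h2 := hM M (by omega) (a, a + M) (by simp)
  simp only [add_tsub_cancel_left] at h2
  rw [div_lt_iff₀ (by exact_mod_cast (by omega : 0 < M))] at h2
  exact h2.le

open Pool.Agent.H648Z.SP in
/-- Every infinite `E` of upper Banach density zero has subsets of upper relative density
arbitrarily close to `1` (in particular positive) whose difference set is not syndetic. -/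
theorem result (E : Set ℕ) (hE : E.Infinite) (h0 : upperBanach E = 0) (η : ℝ) (hη : 0 < η) :
    ∃ A : Set ℕ, A ⊆ E ∧ 0 < upperRel E A ∧ 1 - η ≤ upperRel E A ∧ ¬ Syndetic (diffSet A) := by
  obtain ⟨A, t, hA, ht, hdiff, hfr⟩ := core (sparse_of h0) (η := min η (1 / 2)) (by positivity)
  have h1 : 1 - min η (1 / 2) ≤ upperRel E A := by
    unfold upperRel
    simp only [ncard_cut]
    exact le_limsup_ratio hE hA hfr
  have h2 := min_le_left η (1 / 2)
  have h3 := min_le_right η (1 / 2)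
  refine ⟨A, hA, by linarith, by linarith, ?_⟩
  rintro ⟨L, -, hL⟩
  obtain ⟨z, ⟨a, ha, b, hb, rfl⟩, h4, h5⟩ := hL (t L)
  have := ht L
  exact hdiff L (a - b) (by omega) (by omega) a ha b hb (by omega)

end Pool.Agent.Results.MP_5a03e9_nt.NoSparseSyndetic
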